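import Pool.Agent.W353.AB.Govern
import Pool.Agent.W385.TT.Stab
import Pool.Agent.W385.CP.Size
import Pool.Agent.W385.CP.Rank

/-!
# Tate's conjecture for twists of elliptic curves over function fields of number fields

`K` is a number field, `u = (u_j : j ∈ τ)` are variables, `E : y² = x³ + b₂x² + b₄x + b₆` is an
elliptic curve over `K(u)` with coefficients `b_i ∈ 𝓞_K[u]`, and `h ∈ 𝓞_K[u][t]` has positive degree
in `t` and no multiple root over `K(u)`.  For a number field `F ⊇ K` and `d ∈ 𝓞_F`, `d ≠ 0`, let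
`E_{F,d} : d h(u, t) y² = x³ + b₂x² + b₄x + b₆` be the quadratic twist of `E` by `d h` over the
finitely generated field `F(u, t)`.  The theorem is about the order of its function `Φ₁` at the point
`dim Y = #τ + 2` of Tate's conjecture and about the rank of its group of points over `F(u, t)`, for
all number fields `F ⊇ K` and all `d` together.
-/

set_option autoImplicit false

namespace Pool.Agent.Results.MP_9faec4_nt.AllNumberFields

open NumberField IsDedekindDomain Filter Topology Polynomial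
open scoped TensorProduct

/-- The discriminant of the polynomial `x³ + b₂x² + b₄x + b₆`. -/
def disc {R : Type} [CommRing R] (b₂ b₄ b₆ : R) : R :=
  b₂ ^ 2 * b₄ ^ 2 - 4 * b₄ ^ 3 - 4 * b₂ ^ 3 * b₆ - 27 * b₆ ^ 2 + 18 * b₂ * b₄ * b₆

/-- A family: coefficients `b₂, b₄, b₆ ∈ 𝓞_K[u]` of an elliptic curve, a polynomial `h ∈ 𝓞_K[u][t]` of
positive degree in `t`, separable over `K(u)`, and `N ∈ 𝓞_K[u]`, a nonzero multiple of twice the
discriminant, which is used to choose the models. -/
structure Family (K : Type) [Field K] [NumberField K] (τ : Type) where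
  b₂ : MvPolynomial τ (𝓞 K)
  b₄ : MvPolynomial τ (𝓞 K)
  b₆ : MvPolynomial τ (𝓞 K)
  h : (MvPolynomial τ (𝓞 K))[X]
  N : MvPolynomial τ (𝓞 K)
  disc_ne_zero : disc b₂ b₄ b₆ ≠ 0
  degree_pos : 0 < h.natDegree
  separable : (h.map (algebraMap (MvPolynomial τ (𝓞 K))
    (FractionRing (MvPolynomial τ (𝓞 K))))).Separable
  N_ne_zero : N ≠ 0
  dvd_N : 2 * disc b₂ b₄ b₆ ∣ N

section
variable {K : Type} [Field K] [NumberField K] {τ : Type}

/-- The polynomial `b ∈ 𝓞_K[u]` as an element of `𝓞_F[u][t]`. -/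
noncomputable def up (F : Type) [Field F] [NumberField F] [Algebra K F]
    (b : MvPolynomial τ (𝓞 K)) : (MvPolynomial τ (𝓞 F))[X] :=
  C (MvPolynomial.map (algebraMap (𝓞 K) (𝓞 F)) b)

/-- The polynomial `d h ∈ 𝓞_F[u][t]`. -/
noncomputable def Family.D (E : Family K τ) {F : Type} [Field F] [NumberField F] [Algebra K F]
    (d : 𝓞 F) : (MvPolynomial τ (𝓞 F))[X] :=
  C (MvPolynomial.C d) * E.h.map (MvPolynomial.map (algebraMap (𝓞 K) (𝓞 F)))

/-- The closed points of the model `Y = Spec 𝓞_F[u, t][1/(N d h)]`. -/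
def Family.Y (E : Family K τ) {F : Type} [Field F] [NumberField F] [Algebra K F]
    (d : 𝓞 F) : Type :=
  {y : MaximalSpectrum (MvPolynomial τ (𝓞 F))[X] // up F E.N * E.D d ∉ y.asIdeal}

/-- The number of elements `q_y` of the residue field of a closed point. -/
noncomputable def q {B : Type} [CommRing B] (y : MaximalSpectrum B) : ℕ := Nat.card (B ⧸ y.asIdeal)

/-- The trace of Frobenius `a_y = q_y + 1 - #E_{F,d}(k(y))` of the fibre at the closed point `y` (the
curve `d h y² = x³ + b₂x² + b₄x + b₆` has one point at infinity). -/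
noncomputable def Family.a (E : Family K τ) {F : Type} [Field F] [NumberField F] [Algebra K F]
    (d : 𝓞 F) (y : MaximalSpectrum (MvPolynomial τ (𝓞 F))[X]) : ℤ :=
  (q y : ℤ) + 1 - ((Nat.card {P : ((MvPolynomial τ (𝓞 F))[X] ⧸ y.asIdeal) ×
      ((MvPolynomial τ (𝓞 F))[X] ⧸ y.asIdeal) //
    Ideal.Quotient.mk y.asIdeal (E.D d) * P.2 ^ 2 = P.1 ^ 3 +
      Ideal.Quotient.mk y.asIdeal (up F E.b₂) * P.1 ^ 2 +
      Ideal.Quotient.mk y.asIdeal (up F E.b₄) * P.1 +
      Ideal.Quotient.mk y.asIdeal (up F E.b₆)} : ℤ) + 1)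

/-- The factor `P_{y,1}(q_y^{-s})⁻¹ = (1 - a_y q_y^{-s} + q_y^{1-2s})⁻¹` of `Φ₁` at `y`. -/
noncomputable def Family.factor (E : Family K τ) {F : Type} [Field F] [NumberField F]
    [Algebra K F] (d : 𝓞 F) (s : ℂ) (y : E.Y d) : ℂ :=
  (1 - (E.a d y.1 : ℂ) * ((q y.1 : ℕ) : ℂ) ^ (-s) + ((q y.1 : ℕ) : ℂ) ^ (1 - 2 * s))⁻¹

/-- `Φ` is the function `Φ₁` of `E_{F,d}`, continued to `Re s > dim Y = #τ + 2`: it is holomorphic there
and it is given by the Euler product over the closed points of `Y`, absolutely convergent, for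
`Re s > dim Y + 1/2`. -/
def Family.IsPhi [Fintype τ] (E : Family K τ) {F : Type} [Field F] [NumberField F] [Algebra K F]
    (d : 𝓞 F) (Φ : ℂ → ℂ) : Prop :=
  DifferentiableOn ℂ Φ {s : ℂ | (Fintype.card τ : ℝ) + 2 < s.re} ∧
    ∀ s : ℂ, (Fintype.card τ : ℝ) + 2 + 1 / 2 < s.re → HasProd (E.factor d s) (Φ s)

/-- The function `Φ₁` of `E_{F,d}` has a meromorphic continuation to a neighbourhood of the point
`dim Y = #τ + 2`, of order `m` (an integer, or `⊤` if the continuation is zero) there. -/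
def Family.HasOrder [Fintype τ] (E : Family K τ) {F : Type} [Field F] [NumberField F]
    [Algebra K F] (d : 𝓞 F) (m : WithTop ℤ) : Prop :=
  ∃ Φ Λ : ℂ → ℂ, E.IsPhi d Φ ∧ MeromorphicAt Λ ((Fintype.card τ : ℂ) + 2) ∧
    (∀ᶠ s in 𝓝 ((Fintype.card τ : ℂ) + 2), (Fintype.card τ : ℝ) + 2 < s.re → Λ s = Φ s) ∧
    meromorphicOrderAt Λ ((Fintype.card τ : ℂ) + 2) = m

/-- The Weierstrass equation `y² = x³ + b₂Dx² + b₄D²x + b₆D³`, `D = d h`, of `E_{F,d}` over the field
`L = F(u, t)`. -/
noncomputable def Family.curve (E : Family K τ) {F : Type} [Field F] [NumberField F] [Algebra K F]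
    (d : 𝓞 F) (L : Type) [Field L] [Algebra (MvPolynomial τ (𝓞 F))[X] L] : WeierstrassCurve L where
  a₁ := 0
  a₂ := algebraMap _ L (up F E.b₂) * algebraMap _ L (E.D d)
  a₃ := 0
  a₄ := algebraMap _ L (up F E.b₄) * algebraMap _ L (E.D d) ^ 2
  a₆ := algebraMap _ L (up F E.b₆) * algebraMap _ L (E.D d) ^ 3

/-- The intertwining number of the representations of `Gal(K̄/K)` induced from the quadratic
characters of `F(√d)/F` and `F'(√d')/F'`: the number of the simple factors of `F ⊗_K F'` in which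
`d ⊗ d'` is a square. -/
noncomputable def intertwining (K F F' : Type) [Field K] [Field F] [Algebra K F] [Field F']
    [Algebra K F'] (d : F) (d' : F') : ℕ :=
  Nat.card {m : MaximalSpectrum (F ⊗[K] F') // IsSquare (Ideal.Quotient.mk m.asIdeal (d ⊗ₜ d'))}

/-- An integer of `F ⊆ K̄` as an element of `K̄`. -/
noncomputable def el {F : IntermediateField K (AlgebraicClosure K)} (d : 𝓞 F) :
    AlgebraicClosure K := ((d : F) : AlgebraicClosure K)

/-- The twists `d` over `F` and `e` over `F₀` (`F₀ = F ∩ M` below): either `d e` is a square in `F` and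
`√e ∈ M`, or `√d ∉ F M` and `√e ∉ M`. -/
def Related (M : IntermediateField K (AlgebraicClosure K))
    {F F₀ : IntermediateField K (AlgebraicClosure K)} (d : 𝓞 F) (e : 𝓞 F₀) : Prop :=
  ((∃ z ∈ F, z ^ 2 = el d * el e) ∧ ∃ z ∈ M, z ^ 2 = el e) ∨
    ((∀ z ∈ F ⊔ M, z ^ 2 ≠ el d) ∧ ∀ z ∈ M, z ^ 2 ≠ el e)

/-- Tate's conjecture at the point `dim Y` for `E_{F,d}`, apart from the existence of the
continuation: the group of points over every field `L = F(u, t)` is finite and killed by `2`, so of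
rank `0`, and every meromorphic continuation of `Φ₁` to a neighbourhood of `dim Y` has order
`0 = rank`. -/
def Family.RankZero [Fintype τ] (E : Family K τ) {F : Type} [Field F] [NumberField F]
    [Algebra K F] (d : 𝓞 F) : Prop := by
  classical
  exact ∀ (L : Type) [Field L] [Algebra (MvPolynomial τ (𝓞 F))[X] L]
    [IsFractionRing (MvPolynomial τ (𝓞 F))[X] L],
    (∀ P : (E.curve d L).toAffine.Point, P + P = 0) ∧
    Finite (E.curve d L).toAffine.Point ∧
    Module.finrank ℤ (E.curve d L).toAffine.Point = 0 ∧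
    ∀ m, E.HasOrder d m → m = ((Module.finrank ℤ (E.curve d L).toAffine.Point : ℤ) : WithTop ℤ)

/-- `M` governs the orders at `dim Y` and, up to a condition on the ramification of `√d`, the ranks, for
all `(F, d)` in the class `P`.

1. If `√d ∉ F M` then every meromorphic continuation of `Φ₁` has order `0` at `dim Y`; if moreover
`v(d)` is odd for some prime `v` of `F` that does not divide `N₀`, then the rank is `0` as well.

2. If `e` over `F₀ = F ∩ M` is related to `d`, the orders for `(F, d)` and for `(F₀, e)` are equal.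

3. There is a list of at most `2^(2 ([M : K] + 1))` twists `e` over subfields of `M` such that every
twist `d` over a number field `F ⊇ K` is related to a member of the list over `F ∩ M`. -/
def Family.Governs [Fintype τ] (E : Family K τ) (N₀ : 𝓞 K)
    (M : IntermediateField K (AlgebraicClosure K))
    (P : ∀ (F : IntermediateField K (AlgebraicClosure K)) [NumberField F], 𝓞 F → Prop) : Prop :=
  (∀ (F : IntermediateField K (AlgebraicClosure K)) [NumberField F] (d : 𝓞 F), d ≠ 0 → P F d →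
    (∀ z ∈ F ⊔ M, z ^ 2 ≠ el d) → (∀ m, E.HasOrder d m → m = 0) ∧
      ((∃ v : HeightOneSpectrum (𝓞 F), algebraMap (𝓞 K) (𝓞 F) N₀ ∉ v.asIdeal ∧
        Odd (multiplicity v.asIdeal (Ideal.span {d}))) → E.RankZero d)) ∧
  (∀ (F F₀ : IntermediateField K (AlgebraicClosure K)) [NumberField F] [NumberField F₀],
    F₀ = F ⊓ M → ∀ (d : 𝓞 F) (e : 𝓞 F₀), d ≠ 0 → e ≠ 0 → P F d → P F₀ e → Related M d e →
      ∀ m m', E.HasOrder d m → E.HasOrder e m' → m = m') ∧
  ∃ (l : ℕ) (G : Fin l → IntermediateField K (AlgebraicClosure K)) (e : ∀ a, 𝓞 (G a)),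
    l ≤ 2 ^ (2 * (Module.finrank K M + 1)) ∧
    (∀ a, G a ≤ M ∧ NumberField (G a) ∧ e a ≠ 0) ∧
    ∀ (F : IntermediateField K (AlgebraicClosure K)) [NumberField F] (d : 𝓞 F), d ≠ 0 →
      ∃ a, G a = F ⊓ M ∧ Related M d (e a)

end

section
variable {K : Type} [Field K] [NumberField K] {τ : Type}

open Pool.Agent.W353.TP Pool.Agent.W353.AB Pool.Agent.W385.CP

/-- passage to the helper library -/
noncomputable def Family.fd (E : Family K τ) : FD K τ where
  b₂ := E.b₂
  b₄ := E.b₄
  b₆ := E.b₆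
  N := E.N
  w := E.N * ((bezout_sep E.h E.separable).choose * E.h.leadingCoeff)
  h := E.h
  h2 := (Dvd.intro _ rfl).trans E.dvd_N
  hw0 := by
    obtain ⟨U, V, h1, h2⟩ := (bezout_sep E.h E.separable).choose_spec
    have h0 : E.h ≠ 0 := by
      intro h
      have := E.degree_pos
      rw [h] at this
      simp at this
    exact mul_ne_zero E.N_ne_zero (mul_ne_zero h1 (Polynomial.leadingCoeff_ne_zero.2 h0))
  hNw := Dvd.intro _ rfl
  hm := E.degree_pos
  good := by
    obtain ⟨U, V, h1, h2⟩ := (bezout_sep E.h E.separable).choose_spec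
    exact goodW_of E.h E.N _ ((Dvd.intro _ rfl).trans E.dvd_N) U V h2

variable [Fintype τ] {F : Type} [Field F] [NumberField F] [Algebra K F]

theorem hs_iff (s : ℂ) : ((Fintype.card τ + 1 : ℕ) : ℝ) + 1 < s.re ↔ (Fintype.card τ : ℝ) + 2 < s.re := by
  push_cast
  rw [show (Fintype.card τ : ℝ) + 1 + 1 = (Fintype.card τ : ℝ) + 2 by ring]

theorem isPhi (E : Family K τ) (d : 𝓞 F) : E.IsPhi d (E.fd.Phi F d) := by
  refine ⟨?_, fun s hs => ?_⟩
  · have := E.fd.Phi_diff (F := F) d
    refine this.mono fun s hs => ?_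
    exact (hs_iff s).2 hs
  · have h1 : ((Fintype.card τ + 1 : ℕ) : ℝ) + 3 / 2 < s.re := by
      push_cast
      linarith
    exact E.fd.Phi_prod (F := F) d s h1

theorem isPhi_unique (E : Family K τ) (d : 𝓞 F) {Φ Ψ : ℂ → ℂ} (h : E.IsPhi d Φ) (h' : E.IsPhi d Ψ)
    (s : ℂ) (hs : (Fintype.card τ : ℝ) + 2 < s.re) : Φ s = Ψ s := by
  have hopen : IsOpen {s : ℂ | (Fintype.card τ : ℝ) + 2 < s.re} :=
    isOpen_lt continuous_const Complex.continuous_re
  have hconn : IsPreconnected {s : ℂ | (Fintype.card τ : ℝ) + 2 < s.re} :=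
    (convex_halfSpace_re_gt _).isPreconnected
  have h1 := h.1.analyticOnNhd hopen
  have h2 := h'.1.analyticOnNhd hopen
  set z₀ : ℂ := (((Fintype.card τ : ℝ) + 3 : ℝ) : ℂ) with hz₀
  have hz : z₀ ∈ {s : ℂ | (Fintype.card τ : ℝ) + 2 < s.re} := by
    simp only [Set.mem_ofPred_eq, hz₀, Complex.ofReal_re]
    linarith
  refine h1.eqOn_of_preconnected_of_eventuallyEq h2 hconn hz ?_ hs
  have h3 : IsOpen {s : ℂ | (Fintype.card τ : ℝ) + 2 + 1 / 2 < s.re} :=
    isOpen_lt continuous_const Complex.continuous_re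
  have hz' : z₀ ∈ {s : ℂ | (Fintype.card τ : ℝ) + 2 + 1 / 2 < s.re} := by
    simp only [Set.mem_ofPred_eq, hz₀, Complex.ofReal_re]
    linarith
  filter_upwards [h3.mem_nhds hz'] with z hz
  exact (h.2 z hz).unique (h'.2 z hz)

/-- the limit of the sizes -/
theorem size_lim (E : Family K τ) (d : 𝓞 F) {m : WithTop ℤ} (h : E.HasOrder d m) :
    ∃ n : ℤ, m = n ∧ Tendsto (E.fd.X F d) (𝓝[>] 0) (𝓝 (-(n : ℝ))) := by
  obtain ⟨Φ, Λ, h1, h2, h3, h4⟩ := h
  obtain ⟨n, h5, h6⟩ := Pool.Agent.H126T.order_limit h2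
    (fun ε : ℝ => E.fd.Phi F d (((Fintype.card τ + 1 : ℕ) : ℂ) + 1 + ε))
    (Filter.Eventually.of_forall fun ε => E.fd.Phi_ne d _) (by
      filter_upwards [(Pool.Agent.H341R2.path_tendsto' ((Fintype.card τ : ℂ) + 2)).eventually h3,
        self_mem_nhdsWithin] with ε h7 h8
      have hε : (0 : ℝ) < ε := h8
      have hre : (Fintype.card τ : ℝ) + 2 < ((Fintype.card τ : ℂ) + 2 + ε).re := by
        simp
        exact hε
      rw [h7 hre, isPhi_unique E d h1 (isPhi E d) _ hre]
      congr 1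
      push_cast
      ring)
  exact ⟨n, by rw [← h4, h5], h6⟩

/-- a twist with a meromorphic continuation of order `m` -/
structure Ix (E : Family K τ) where
  F : IntermediateField K (AlgebraicClosure K)
  nf : NumberField F
  d : 𝓞 F
  hd : d ≠ 0
  m : ℤ
  h : E.HasOrder d m

instance Ix.instNF {E : Family K τ} (x : Ix E) : NumberField x.F := x.nf

theorem Ix.lim {E : Family K τ} (x : Ix E) :
    Tendsto (E.fd.X x.F x.d) (𝓝[>] 0) (𝓝 (-(x.m : ℝ))) := by
  obtain ⟨n, h1, h2⟩ := size_lim E x.d x.h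
  have : x.m = n := by exact_mod_cast h1
  rw [this]
  exact h2

/-- passage to the helper library -/
noncomputable def Ix.dat {E : Family K τ} (x : Ix E) : Pool.Agent.W385.TT.Dat K (Fin 1) :=
  ⟨x.F, x.nf, fun _ => x.d, fun _ => x.hd⟩

theorem prod_one {M : Type} [CommMonoid M] (d : M) : ∏ _i ∈ ({0} : Finset (Fin 1)), d = d :=
  Finset.prod_singleton _ _

theorem ineq (E : Family K τ) (κ : Type) (S : Finset κ) (g : κ → Ix E) (a : κ → ℝ) :
    (∑ k ∈ S, a k * ((g k).m : ℝ)) ^ 2 ≤
      (2 * ((E.h.natDegree : ℝ) - 1)) ^ 2 * ∑ k ∈ S, ∑ l ∈ S, a k * a l *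
        (intertwining K (g k).F (g l).F ((g k).d : (g k).F) ((g l).d : (g l).F) : ℝ) := by
  classical
  refine le_of_forall_pos_le_add fun η hη => ?_
  have h1 := main_ineq E.fd.sy S (fun k => (g k).F) (fun k _ => (g k).d) (fun _ => 0)
    (fun k _ _ => (g k).hd) (fun k => E.fd.X (g k).F (g k).d)
    (fun k _ => E.fd.isSize (F := (g k).F) (fun _ => (g k).d)) a hη
  have h2 : Tendsto (fun ε => (∑ k ∈ S, a k * E.fd.X (g k).F (g k).d ε) ^ 2) (𝓝[>] 0)
      (𝓝 ((∑ k ∈ S, a k * (-((g k).m : ℝ))) ^ 2)) :=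
    (tendsto_finsetSum S fun k _ => ((g k).lim).const_mul (a k)).pow 2
  have h4 := le_of_tendsto h2 h1
  have e1 : (∑ k ∈ S, a k * (-((g k).m : ℝ))) ^ 2 = (∑ k ∈ S, a k * ((g k).m : ℝ)) ^ 2 := by
    have : ∑ k ∈ S, a k * (-((g k).m : ℝ)) = -∑ k ∈ S, a k * ((g k).m : ℝ) := by
      rw [← Finset.sum_neg_distrib]
      exact Finset.sum_congr rfl fun k _ => by ring
    rw [this, neg_sq]
  rw [e1] at h4
  refine h4.trans (le_of_eq ?_)
  congr 1
  have e2 : ∑ j ∈ E.fd.sy.P, E.fd.sy.b j = 2 * ((E.h.natDegree : ℝ) - 1) :=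
    Finset.sum_singleton (fun _ : Unit => 2 * ((E.h.natDegree : ℝ) - 1)) ()
  have e3 : ∀ k l, E.fd.sy.G (F := (g k).F) (F' := (g l).F) (fun _ => (g k).d) 0
      (fun _ => (g l).d) 0 = 2 * ((E.h.natDegree : ℝ) - 1) *
        (intertwining K (g k).F (g l).F ((g k).d : (g k).F) ((g l).d : (g l).F) : ℝ) := by
    intro k l
    unfold Sy.G
    change ∑ j ∈ ({()} : Finset Unit), _ = _
    rw [Finset.sum_singleton, if_pos rfl]
    have e4 : ∀ (G : IntermediateField K (AlgebraicClosure K)) (d : 𝓞 G),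
        E.fd.sy.D (fun _ => d) () = d := fun G d => prod_one d
    rw [e4, e4]
    rfl
  have e5 : ∑ k ∈ S, ∑ l ∈ S, a k * a l * E.fd.sy.G (F := (g k).F) (F' := (g l).F)
      (fun _ => (g k).d) 0 (fun _ => (g l).d) 0 = 2 * ((E.h.natDegree : ℝ) - 1) *
        ∑ k ∈ S, ∑ l ∈ S, a k * a l *
        (intertwining K (g k).F (g l).F ((g k).d : (g k).F) ((g l).d : (g l).F) : ℝ) := by
    rw [Finset.mul_sum]
    refine Finset.sum_congr rfl fun k _ => ?_
    rw [Finset.mul_sum]
    refine Finset.sum_congr rfl fun l _ => ?_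
    rw [e3]
    ring
  rw [e2, e5]
  ring

end

open Pool.Agent.W353.TP Pool.Agent.W353.AB Pool.Agent.W385.CP in
/-- **Tate's conjecture for twists over function fields of number fields.**  Let `n = #τ + 2`, the
dimension of the models `Y`, and `c = 2 (deg_t h - 1)`.

(0) For all number fields `F ⊇ K` and `d ≠ 0` the Euler product of `E_{F,d}` converges absolutely for
`Re s > n + 1/2` and continues to a holomorphic function `Φ₁` without zeros on `Re s > n`.

(A) Let `(F_k, d_k)`, `k ∈ S`, be finitely many twists over number fields `F_k ⊇ K` of any degrees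
whose functions `Φ₁` continue meromorphically to a neighbourhood of `n`, of orders `m_k` at `n`.  Then
`(∑ a_k m_k)² ≤ c² ∑_{k, l} a_k a_l I(k, l)` for all real numbers `a_k`, with the intertwining numbers
`I(k, l)` of the quadratic characters of `F_k(√d_k)/F_k` and `F_l(√d_l)/F_l`.

(B) There is an integer `N₀ ≠ 0` of `K` such that if `v(d)` is odd for some prime `v` of `F` which does
not divide `N₀`, then the group of points of `E_{F,d}` over `F(u, t)` is finite and killed by `2`.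

(C) Let `ν ≥ 0` and let `P` be a class of pairs `(F, d)` such that for every pair `[F : K] ≤ ν` or the
representation of `Gal(K̄/K)` induced from the quadratic character of `F(√d)/F` has intertwining
number at most `ν` with itself; for instance all `(F, d)` with `[F : K] ≤ ν`.  Then there is a finite
Galois extension `M` of `K` that governs the orders for all pairs in `P`; in particular rank and
order at `dim Y` are both `0` for all `(F, d)` in `P` with `√d ∉ F M` such that `v(d)` is odd for some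
prime `v` of `F` which does not divide `N₀`.  If `[F : K] ≤ m` for all pairs in `P`, the degree of `M`
is at most `((4 m)!)^(2 ν c²)`. -/
theorem result (K : Type) [Field K] [NumberField K] (τ : Type) [Fintype τ] (E : Family K τ)
    (c : ℕ) (hc : c = 2 * (E.h.natDegree - 1)) :
    (∀ (F : Type) [Field F] [NumberField F] [Algebra K F] (d : 𝓞 F), d ≠ 0 →
      ∃ Φ : ℂ → ℂ, E.IsPhi d Φ ∧ ∀ s, Φ s ≠ 0) ∧
    (∀ (κ : Type) (S : Finset κ) (F : κ → IntermediateField K (AlgebraicClosure K))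
      [∀ k, NumberField (F k)] (d : ∀ k, 𝓞 (F k)) (m : κ → ℤ), (∀ k, d k ≠ 0) →
      (∀ k, E.HasOrder (d k) (m k)) → ∀ a : κ → ℝ,
        (∑ k ∈ S, a k * (m k : ℝ)) ^ 2 ≤ (c : ℝ) ^ 2 * ∑ k ∈ S, ∑ l ∈ S, a k * a l *
          (intertwining K (F k) (F l) (d k : F k) (d l : F l) : ℝ)) ∧
    ∃ N₀ : 𝓞 K, N₀ ≠ 0 ∧
      (∀ (F : Type) [Field F] [NumberField F] [Algebra K F] (d : 𝓞 F), d ≠ 0 →
        ∀ v : HeightOneSpectrum (𝓞 F), algebraMap (𝓞 K) (𝓞 F) N₀ ∉ v.asIdeal →
        Odd (multiplicity v.asIdeal (Ideal.span {d})) →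
        ∀ (L : Type) [Field L] [Algebra (MvPolynomial τ (𝓞 F))[X] L]
          [IsFractionRing (MvPolynomial τ (𝓞 F))[X] L] [DecidableEq L],
          (∀ P : (E.curve d L).toAffine.Point, P + P = 0) ∧
          Finite (E.curve d L).toAffine.Point ∧
          Module.finrank ℤ (E.curve d L).toAffine.Point = 0) ∧
      ∀ ν : ℕ, ∀ P : (∀ (F : IntermediateField K (AlgebraicClosure K)) [NumberField F],
          𝓞 F → Prop),
        (∀ (F : IntermediateField K (AlgebraicClosure K)) [NumberField F] (d : 𝓞 F),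
          P F d → Module.finrank K F ≤ ν ∨ intertwining K F F (d : F) (d : F) ≤ ν) →
        ∀ m : ℕ, ∃ M : IntermediateField K (AlgebraicClosure K),
          FiniteDimensional K M ∧ IsGalois K M ∧
          ((∀ (F : IntermediateField K (AlgebraicClosure K)) [NumberField F] (d : 𝓞 F),
            P F d → Module.finrank K F ≤ m) →
              Module.finrank K M ≤ (4 * m).factorial ^ (2 * ν * c ^ 2)) ∧
          E.Governs N₀ M P := by
  classical
  have hcR : (c : ℝ) = 2 * ((E.h.natDegree : ℝ) - 1) := by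
    rw [hc]
    push_cast [Nat.cast_sub E.degree_pos]
    ring
  have hineq : ∀ (κ : Type) (S : Finset κ) (g : κ → Ix E) (a : κ → ℝ),
      (∑ k ∈ S, a k * ((g k).m : ℝ)) ^ 2 ≤ (c : ℝ) ^ 2 * ∑ k ∈ S, ∑ l ∈ S, a k * a l *
        (intertwining K (g k).F (g l).F ((g k).d : (g k).F) ((g l).d : (g l).F) : ℝ) := by
    intro κ S g a
    rw [hcR]
    exact ineq E κ S g a
  obtain ⟨N₀, hN₀, hpt⟩ := no_point E.b₂ E.b₄ E.b₆ E.disc_ne_zero E.h E.degree_pos E.separable
  have hrank : ∀ (F : Type) [Field F] [NumberField F] [Algebra K F] (d : 𝓞 F), d ≠ 0 →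
        ∀ v : HeightOneSpectrum (𝓞 F), algebraMap (𝓞 K) (𝓞 F) N₀ ∉ v.asIdeal →
        Odd (multiplicity v.asIdeal (Ideal.span {d})) →
        ∀ (L : Type) [Field L] [Algebra (MvPolynomial τ (𝓞 F))[X] L]
          [IsFractionRing (MvPolynomial τ (𝓞 F))[X] L] [DecidableEq L],
          (∀ P : (E.curve d L).toAffine.Point, P + P = 0) ∧
          Finite (E.curve d L).toAffine.Point ∧
          Module.finrank ℤ (E.curve d L).toAffine.Point = 0 := by
    intro F _ _ _ d hd v hv hodd L _ _ _ dec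
    have hH := hpt F d hd v hv hodd L
    have hD : algebraMap _ L (E.D d) ≠ 0 := by
      have hinj : Function.Injective (algebraMap (MvPolynomial τ (𝓞 F))[X] L) :=
        IsFractionRing.injective _ L
      rw [Ne, map_eq_zero_iff _ hinj]
      refine mul_ne_zero ?_ ?_
      · rw [Ne, Polynomial.C_eq_zero, MvPolynomial.C_eq_zero]
        exact hd
      · rw [Ne, Polynomial.map_eq_zero_iff (MvPolynomial.map_injective _
          (FaithfulSMul.algebraMap_injective (𝓞 K) (𝓞 F)))]
        intro h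
        have := E.degree_pos
        rw [h] at this
        simp at this
    obtain rfl : dec = Classical.decEq L := Subsingleton.elim _ _
    exact ⟨Pool.Agent.H126G.twist_two_torsion _ _ _ _ hD hH,
      Pool.Agent.H126G.twist_finite _ _ _ _ hD hH,
      Pool.Agent.H126G.twist_finrank _ _ _ _ hD hH⟩
  refine ⟨fun F _ _ _ d _ => ⟨E.fd.Phi F d, isPhi E d, E.fd.Phi_ne d⟩,
    fun κ S F _ d m hd hm a => hineq κ S (fun k => ⟨F k, inferInstance, d k, hd k, m k, hm k⟩) a,
    N₀, hN₀, hrank, fun ν P hP m => ?_⟩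
  have hb : ∀ j ∈ ({()} : Finset Unit), (0 : ℝ) ≤ (fun _ : Unit => (c : ℝ)) j :=
    fun _ _ => Nat.cast_nonneg c
  have hNb : ((c : ℕ) : ℝ) = ∑ j ∈ ({()} : Finset Unit), (fun _ : Unit => (c : ℝ)) j :=
    (Finset.sum_singleton (fun _ : Unit => (c : ℝ)) ()).symm
  set A : Unit → Finset (Fin 1) := fun _ => {0} with hA
  have hGD : ∀ x y : Ix E, Pool.Agent.W385.TT.GD A ({()} : Finset Unit) (fun _ => (c : ℝ))
      x.dat y.dat = (c : ℝ) * (intertwining K x.F y.F (x.d : x.F) (y.d : y.F) : ℝ) := by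
    intro x y
    unfold Pool.Agent.W385.TT.GD Pool.Agent.W385.TT.Gn
    rw [Finset.sum_singleton]
    have e4 : ∀ z : Ix E, z.dat.D A () = z.d := fun z => prod_one z.d
    rw [e4, e4]
    rfl
  have hBes : Pool.Agent.W385.TT.Bes A ({()} : Finset Unit) (fun _ => (c : ℝ)) (Ix.dat (E := E))
      (fun x => (x.m : ℝ)) (c : ℝ) := by
    intro κ S g a
    refine (hineq κ S g a).trans (le_of_eq ?_)
    rw [sq, mul_assoc]
    congr 1
    rw [Finset.mul_sum]
    refine Finset.sum_congr rfl fun k _ => ?_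
    rw [Finset.mul_sum]
    refine Finset.sum_congr rfl fun l _ => ?_
    rw [hGD]
    ring
  obtain ⟨M, hM1, hM2, hdeg, hAA, hC⟩ := Pool.Agent.W385.TT.stab' hb hNb hBes ν 1 m
    (fun x => P x.F x.d)
  have hsep : Algebra.IsSeparable K M := inferInstance
  have hBd : ∀ x : Ix E, P x.F x.d → Pool.Agent.W385.TT.Bd A ({()} : Finset Unit) ν x.dat := by
    intro x h
    rcases hP x.F x.d h with h1 | h1
    · exact Pool.Agent.W385.TT.Bd_of_finrank h1
    · intro j _
      have e4 : x.dat.D A j = x.d := prod_one x.d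
      rw [e4]
      exact h1
  have hpr : ∀ (x : Ix E) (j : Unit), x.dat.pr A j = el x.d := by
    intro x j
    have e4 : x.dat.D A j = x.d := prod_one x.d
    unfold Pool.Agent.W385.TT.Dat.pr
    rw [e4]
    rfl
  have hzero : ∀ (F : IntermediateField K (AlgebraicClosure K)) [NumberField F] (d : 𝓞 F), d ≠ 0 →
      P F d → (∀ z ∈ F ⊔ M, z ^ 2 ≠ el d) → ∀ m, E.HasOrder d m → m = 0 := by
    intro F hF d hd hPd hcond m hm
    obtain ⟨m', rfl, _⟩ := size_lim E d hm
    let x : Ix E := ⟨F, hF, d, hd, m', hm⟩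
    have h1 := hAA x (hBd x hPd) hPd (fun j _ y hy => by
      rw [hpr x]
      exact hcond y hy)
    have h2 : |(m' : ℝ)| < 1 := by
      push_cast at h1
      rw [one_mul] at h1
      exact h1
    have h4 : m' = 0 := by
      by_contra hne
      have h5 := Int.one_le_abs hne
      have h6 : (1 : ℝ) ≤ |(m' : ℝ)| := by exact_mod_cast h5
      linarith
    rw [h4]
    rfl
  refine ⟨M, hM1, IsGalois.mk, fun h => ?_, ?_, ?_, ?_⟩
  · have h1 := hdeg fun x hx => h x.F x.d hx
    rwa [Fintype.card_fin, one_mul, pow_one] at h1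
  · intro F hF d hd hPd hcond
    refine ⟨hzero F d hd hPd hcond, ?_⟩
    rintro ⟨v, hv, hodd⟩
    intro L _ _ _
    have h1 := hrank F d hd v hv hodd L
    refine ⟨h1.1, h1.2.1, h1.2.2, fun m hm => ?_⟩
    rw [hzero F d hd hPd hcond m hm, h1.2.2]
    rfl
  · intro F F₀ hF hF₀ hFF d e hd he hPd hPe hR m m' hm hm'
    obtain ⟨n₁, rfl, _⟩ := size_lim E d hm
    obtain ⟨n₂, rfl, _⟩ := size_lim E e hm'
    let x : Ix E := ⟨F, hF, d, hd, n₁, hm⟩
    let y : Ix E := ⟨F₀, hF₀, e, he, n₂, hm'⟩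
    have h1 := hC x y hFF (hBd x hPd) (hBd y hPe) hPd (fun j _ => by
      rw [hpr x, hpr y]
      exact hR)
    have h2 : |((n₁ - n₂ : ℤ) : ℝ)| < 1 := by
      push_cast
      push_cast at h1
      rw [one_mul] at h1
      exact h1
    have h4 : n₁ - n₂ = 0 := by
      by_contra hne
      have h5 := Int.one_le_abs hne
      have h6 : (1 : ℝ) ≤ |((n₁ - n₂ : ℤ) : ℝ)| := by exact_mod_cast h5
      linarith
    have h5 : n₁ = n₂ := by omega
    rw [h5]
  · obtain ⟨l, s, hl, hs⟩ := finite_list E.fd.sy M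
    have hpA : ∀ (G : IntermediateField K (AlgebraicClosure K)) (e : Fin 1 → 𝓞 G),
        prA E.fd.sy e () = el (e 0) := by
      intro G e
      have e4 : E.fd.sy.D e () = e 0 := Finset.prod_singleton _ _
      unfold prA
      rw [e4]
      rfl
    refine ⟨l, fun a => (s a).G, fun a => (s a).e (0 : Fin 1), ?_,
      fun a => ⟨(s a).le, (s a).nf, (s a).he (0 : Fin 1)⟩, fun F _ d hd => ?_⟩
    · refine hl.trans (le_of_eq ?_)
      have : E.fd.sy.P.card = 1 := Finset.card_singleton ()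
      rw [this]
    · obtain ⟨a, ha, hR⟩ := hs F (fun _ => d) (fun _ => hd)
      refine ⟨a, ha, ?_⟩
      have h1 := hR () (Finset.mem_singleton_self ())
      rw [show prA E.fd.sy (fun _ => d) () = el d from hpA F (fun _ => d),
        show prA E.fd.sy (s a).e () = el ((s a).e (0 : Fin 1)) from hpA _ (s a).e] at h1
      exact h1

end Pool.Agent.Results.MP_9faec4_nt.AllNumberFields
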