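import Pool.Agent.W263.EP.Fg3
import Pool.Agent.H126G.Sums
import Pool.Agent.H126R3.Phi

/-!
# Tate's `Φ₁` over finitely generated fields and sums of traces over closed points

Let `𝒴` be an irreducible regular scheme of finite type over `ℤ`, of dimension `n ≥ 2`, with closed
points `y` and residue fields of `q_y` elements, and let `𝒳 → 𝒴` be smooth and projective, `A` the Picard
variety of the generic fibre, `d = dim A`.  By Weil's theorem
`P_{y,1}(T) = ∏_{j ≤ d} (1 - a_{y,j} T + q_y T²)` with real numbers `|a_{y,j}| ≤ 2 √q_y` (`a_{y,j}` is the sum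
of two complex conjugate eigenvalues), `Φ₁(s) = ∏_y P_{y,1}(q_y^{-s})⁻¹`, and `∑_j a_{y,j}` is the trace of
the Frobenius at `y` on `H¹`.  Nothing else is used about `𝒳 → 𝒴`, so the theorem is about every system
of such numbers; the point of Tate's conjecture is `s = n = dim 𝒴`.
-/

set_option autoImplicit false

namespace Pool.Agent.Results.MP_9faec4_nt.ClosedPointSums

open Filter Topology MvPolynomial

/-- `q` is a system of norms of dimension `n ≥ 2`: the norms are at least `2` and `∑_y q_y^{-s}`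
converges for `s > n`. -/
def IsBase {Y : Type} (q : Y → ℕ) (n : ℕ) : Prop :=
  (∀ y, 2 ≤ q y) ∧ 2 ≤ n ∧ ∀ s : ℝ, (n : ℝ) < s → Summable fun y => (q y : ℝ) ^ (-s)

/-- The Weil bound. -/
def WeilBound {Y : Type} {d : ℕ} (q : Y → ℕ) (a : Y → Fin d → ℝ) : Prop :=
  ∀ y j, |a y j| ≤ 2 * √(q y : ℝ)

/-- `Φ₁(s) = ∏_y ∏_j (1 - a_{y,j} q_y^{-s} + q_y^{1-2s})⁻¹`. -/
noncomputable def Phi1 {Y : Type} {d : ℕ} (q : Y → ℕ) (a : Y → Fin d → ℝ) (s : ℂ) : ℂ :=
  ∏' y, ∏ j, (1 - a y j * ((q y : ℕ) : ℂ) ^ (-s) + ((q y : ℕ) : ℂ) * (((q y : ℕ) : ℂ) ^ (-s)) ^ 2)⁻¹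

/-- The sum `N_k(x) = -∑_{q_y ≤ x} (1 - log q_y / log x)^k (∑_j a_{y,j}) / q_y^n`. -/
noncomputable def traceSum {Y : Type} {d : ℕ} (q : Y → ℕ) (n : ℕ) (a : Y → Fin d → ℝ) (k : ℕ)
    (x : ℝ) : ℝ :=
  -∑ᶠ y ∈ {y : Y | (q y : ℝ) ≤ x},
    (1 - Real.log (q y) / Real.log x) ^ k * ((∑ j, a y j) / (q y : ℝ) ^ n)

/-- `F` is an analytic continuation of `Φ₁` to a neighbourhood of the real half line `s > n`. -/
def ContinuesAlongReals {Y : Type} {d : ℕ} (q : Y → ℕ) (n : ℕ) (a : Y → Fin d → ℝ)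
    (F : ℂ → ℂ) : Prop :=
  (∀ s : ℝ, (n : ℝ) < s → AnalyticAt ℂ F s) ∧ ∃ σ₀ : ℝ, ∀ s : ℝ, σ₀ < s → F s = Phi1 q a s

/-- `F` is an analytic continuation of `Φ₁` to the half plane `Re s > n`, without zeros there. -/
def ContinuesWithoutZeros {Y : Type} {d : ℕ} (q : Y → ℕ) (n : ℕ) (a : Y → Fin d → ℝ)
    (F : ℂ → ℂ) : Prop :=
  DifferentiableOn ℂ F {s : ℂ | (n : ℝ) < s.re} ∧ (∀ s : ℂ, (n : ℝ) < s.re → F s ≠ 0) ∧
    ∃ σ₀ : ℝ, ∀ s : ℂ, σ₀ < s.re → F s = Phi1 q a s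

/-- `F` has the order `ρ` at `s = n`: `log |F(s)| / log (s - n) → ρ` as `s → n⁺`. -/
def HasOrder (n : ℕ) (F : ℂ → ℂ) (ρ : ℝ) : Prop :=
  Tendsto (fun s : ℝ => Real.log ‖F s‖ / Real.log (s - n)) (𝓝[>] (n : ℝ)) (𝓝 ρ)

/-! ### The function fields `ℚ(t_1, …, t_m)` -/

/-- The closed points of `Spec ℤ[t_i : i ∈ σ][1/N]`. -/
abbrev Base {σ : Type} (N : MvPolynomial σ ℤ) : Type :=
  {y : MaximalSpectrum (MvPolynomial σ ℤ) // N ∉ y.asIdeal}

/-- The number of elements of the residue field. -/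
noncomputable def norm {σ : Type} {N : MvPolynomial σ ℤ} (y : Base N) : ℕ :=
  Nat.card (MvPolynomial σ ℤ ⧸ y.1.asIdeal)

/-- The number of affine points over the residue field at `y` of `z² = x³ + b₂ x² + b₄ x + b₆`. -/
noncomputable def affineCount {σ : Type} {N : MvPolynomial σ ℤ} (b₂ b₄ b₆ : MvPolynomial σ ℤ)
    (y : Base N) : ℕ :=
  Nat.card {P : (MvPolynomial σ ℤ ⧸ y.1.asIdeal) × (MvPolynomial σ ℤ ⧸ y.1.asIdeal) //
    P.2 ^ 2 = P.1 ^ 3 + Ideal.Quotient.mk _ b₂ * P.1 ^ 2 + Ideal.Quotient.mk _ b₄ * P.1 +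
      Ideal.Quotient.mk _ b₆}

theorem isBase_pts {Y : Type} {q : Y → ℕ} {n : ℕ} (h : IsBase q n) : Pool.Agent.W263.EP.Pts q n :=
  ⟨h.1, h.2.1, h.2.2⟩

/-- **The order of `Φ₁` at `s = dim 𝒴` and sums of traces over closed points.**

Part A.  Let `n = dim 𝒴 ≥ 2` and let `ρ` be a real number.  No continuation of `Φ₁` is assumed.  The
following are equivalent.

1. For some `k`, `N_k(x) = (ρ + o(1)) log log x`.
2. `Φ₁` has an analytic continuation to a neighbourhood of the real half line `s > n`, of order `ρ` at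
`s = n`, and for some `k` and `C`, `N_k(x) ≤ C log log x` for all large `x`.
3. `Φ₁` has an analytic continuation to a neighbourhood of the real half line `s > n`, without real
zeros `s > n`, of order `ρ` at `s = n`, and for some `k` and `C`, `N_k(x) ≥ -C log log x` for all large `x`.
4. `Φ₁` has an analytic continuation to the half plane `Re s > n`, without zeros there, of order `ρ` at
`s = n`, and for some `k` and `C`, `|N_k(x)| ≤ C log log x` for all large `x`.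

Part B.  If `Φ₁` has any analytic continuation `F` to a neighbourhood of the real half line `s > n`, of
order `ρ` at `s = n`, then for all `k` and `σ < ρ`, `N_k(x) > σ log log x` for arbitrarily large `x`.

Part C.  If `F` is meromorphic at `n` with `ord_{s=n} F = m`, then its order in the above sense is `m`.

Part D.  The hypotheses hold for `K = ℚ(t_1, …, t_m)`, `m ≥ 1`, `𝒴 = Spec ℤ[t_1, …, t_m][1/N]`, `2 ∣ N`,
`n = m + 1`, and `X` the product of `d` elliptic curves `z² = x³ + b₂ x² + b₄ x + b₆` with coefficients in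
`ℤ[t_1, …, t_m]` and discriminants dividing a power of `N`, `a_{y,j} = q_y - #{affine points of E_j over
k(y)}`. -/
theorem result :
    (∀ (Y : Type) (d : ℕ) (q : Y → ℕ) (n : ℕ) (a : Y → Fin d → ℝ) (_ : IsBase q n)
      (_ : WeilBound q a) (ρ : ℝ),
      List.TFAE [
        ∃ k : ℕ, Tendsto (fun x : ℝ => traceSum q n a k x / Real.log (Real.log x)) atTop (𝓝 ρ),
        (∃ F : ℂ → ℂ, ContinuesAlongReals q n a F ∧ HasOrder n F ρ) ∧
          ∃ (k : ℕ) (C : ℝ), ∀ᶠ x : ℝ in atTop, traceSum q n a k x ≤ C * Real.log (Real.log x),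
        (∃ F : ℂ → ℂ, ContinuesAlongReals q n a F ∧ HasOrder n F ρ ∧
          ∀ s : ℝ, (n : ℝ) < s → F s ≠ 0) ∧
          ∃ (k : ℕ) (C : ℝ), ∀ᶠ x : ℝ in atTop, -(C * Real.log (Real.log x)) ≤ traceSum q n a k x,
        (∃ F : ℂ → ℂ, ContinuesWithoutZeros q n a F ∧ HasOrder n F ρ) ∧
          ∃ (k : ℕ) (C : ℝ), ∀ᶠ x : ℝ in atTop,
            |traceSum q n a k x| ≤ C * Real.log (Real.log x)]) ∧
    (∀ (Y : Type) (d : ℕ) (q : Y → ℕ) (n : ℕ) (a : Y → Fin d → ℝ) (_ : IsBase q n)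
      (_ : WeilBound q a) (F : ℂ → ℂ) (_ : ContinuesAlongReals q n a F) (ρ : ℝ) (_ : HasOrder n F ρ)
      (k : ℕ) (σ : ℝ), σ < ρ → ∃ᶠ x : ℝ in atTop, σ * Real.log (Real.log x) < traceSum q n a k x) ∧
    (∀ (n : ℕ) (F : ℂ → ℂ) (m : ℤ), MeromorphicAt F (n : ℂ) → meromorphicOrderAt F (n : ℂ) = m →
      HasOrder n F m) ∧
    (∀ (σ : Type) [Fintype σ] [Nonempty σ] (N : MvPolynomial σ ℤ) (_ : 2 ∣ N),
      IsBase (norm (N := N)) (Fintype.card σ + 1) ∧
      ∀ (d : ℕ) (b₂ b₄ b₆ : Fin d → MvPolynomial σ ℤ),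
        WeilBound (norm (N := N)) fun y j => (norm y : ℝ) - affineCount (b₂ j) (b₄ j) (b₆ j) y) := by
  refine ⟨?_, ?_, ?_, ?_⟩
  · intro Y d q n a hq ha ρ
    exact Pool.Agent.W263.EP.fg_tfae (isBase_pts hq) ha ρ
  · intro Y d q n a hq ha F hF ρ hρ k σ hσ
    exact Pool.Agent.W263.EP.fg_upper (isBase_pts hq) ha hF hρ k hσ
  · intro n F m hF hm
    exact Pool.Agent.W263.EP.wOrd_of_mero (F := F) (c := (n : ℝ)) (n := m) (by simpa using hF)
      (by simpa using hm)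
  · intro σ _ _ N hN
    refine ⟨⟨fun y => ?_, ?_, fun s hs => ?_⟩, fun d b₂ b₄ b₆ y j => ?_⟩
    · unfold norm
      have : Finite (MvPolynomial σ ℤ ⧸ y.1.asIdeal) := Pool.Agent.H126R3.finite_res y.1
      have : Nontrivial (MvPolynomial σ ℤ ⧸ y.1.asIdeal) :=
        Ideal.Quotient.nontrivial_iff.mpr y.1.isMaximal.ne_top
      exact Finite.one_lt_card
    · have : 0 < Fintype.card σ := Fintype.card_pos
      omega
    · have h1 := Pool.Agent.H126R3.summable_y (σ := σ) s (by push_cast at hs; exact hs)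
      exact h1.comp_injective Subtype.val_injective
    · have hg : Pool.Agent.H126G.Good N 1 y.1 := by
        unfold Pool.Agent.H126G.Good
        rw [mul_one]
        exact y.2
      have h1 := Pool.Agent.H126G.ay_bound (y := y.1) (b₂ j) (b₄ j) (b₆ j) hN hg
      have h2 : ((norm y : ℝ) - affineCount (b₂ j) (b₄ j) (b₆ j) y) =
          (Pool.Agent.H126G.ay (b₂ j) (b₄ j) (b₆ j) 1 y.1 : ℝ) := by
        unfold Pool.Agent.H126G.ay Pool.Agent.H126G.tr norm affineCount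
        simp only [map_one, one_mul]
        push_cast
        ring
      show |((norm y : ℝ) - affineCount (b₂ j) (b₄ j) (b₆ j) y)| ≤ 2 * √(norm y : ℝ)
      rw [h2]
      exact h1

end Pool.Agent.Results.MP_9faec4_nt.ClosedPointSums
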