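import Pool.Agent.W309.TL.Fam

/-!
Elliptic curves over global function fields of characteristic at least five with a rational point of
prime order `l ≥ 5`, and their quadratic twists: bounds for the order of vanishing of the
`L`-function at `T = 1 / |k|` from the `L`-function modulo `l`, explicit for the universal curves
with a point of order five or seven, and infinite families without a zero.
-/

set_option autoImplicit false

namespace Pool.Agent.Results.MP_9faec4_nt.PrimeTorsionBound

open Pool.Agent.W309.TL

theorem result : (BoundPoint ∧ BoundTwist) ∧ (PointFive ∧ PointSeven) ∧ (BoundFive ∧ BoundSeven) ∧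
    (RatFive ∧ RatSeven) ∧ FamilyFive ∧ FamilySeven :=
  ⟨⟨boundPoint, boundTwist⟩, ⟨pointFive, pointSeven⟩, ⟨boundFive, boundSeven⟩,
    ⟨ratFive, ratSeven⟩, familyFive, familySeven⟩

end Pool.Agent.Results.MP_9faec4_nt.PrimeTorsionBound
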